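import Pool.Agent.Helper37.T5b.Ev

/-!
# T5b (MP_12a1af): at most one event between two near main positions

Main positions `y' ≤ y < y' + ZZ m k (era y)`: nothing happens, or exactly one of: border, begin of the
isolated phase, change of the order, UN-KEY, SPLIT, DROP.
-/

set_option autoImplicit false

namespace Pool.Agent.Helper37.T5b

open Finset Pool.Agent.Helper5.ET Pool.Agent.Helper27.T4

/-- no newborn digit before a main digit of `[y', y]` -/
def Still (m k y' y : ℕ) : Prop := ∀ z, y' ≤ z → z ≤ y → ¬ gd m k z

/-- nothing happens -/
structure Quiet (m k y' y : ℕ) : Prop where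
  era_eq : era y' = era y
  ord_eq : ordK y' = ordK y
  iso_iff : iso y' ↔ iso y
  sv_eq : sv m k y' = sv m k y
  dv_eq : dv m k y' = dv m k y
  keyed_iff : keyed m k y' ↔ keyed m k y

/-- all nodes of the eras `< era y` are passed, none of the era `era y` -/
structure Border (m k y' y : ℕ) : Prop where
  era_eq : era y = era y' + 1
  ord' : ordK y' = era y
  ord : ordK y = era y
  iso' : ¬ iso y'
  iso : ¬ iso y
  sv' : sv m k y' = lv m k (era y)
  sv : sv m k y = lv m k (era y)
  dv' : dv m k y' = lv m k (era y)
  dv : dv m k y = lv m k (era y)
  keyed' : keyed m k y'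
  keyed : keyed m k y
  still : Still m k y' y
  bb' : y' < bb (era y)
  bb : bb (era y) ≤ y

/-- the family `2` becomes isolated -/
structure IsoEv (m k y' y : ℕ) : Prop where
  era_eq : era y' = era y
  ord' : ordK y' = era y
  ord : ordK y = era y
  iso' : ¬ iso y'
  iso : iso y
  sv' : sv m k y' = lv m k (era y + 1)
  sv : sv m k y = lv m k (era y + 1)
  dv' : dv m k y' = lv m k (era y + 1)
  dv : dv m k y = lv m k (era y + 1)
  keyed' : keyed m k y'
  keyed : keyed m k y
  still : Still m k y' y

/-- the order changes -/
structure OrdEv (m k y' y : ℕ) : Prop where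
  era_eq : era y' = era y
  ord' : ordK y' = era y
  ord : ordK y = era y + 1
  iso' : iso y'
  iso : ¬ iso y
  sv' : sv m k y' = lv m k (era y + 1)
  sv : sv m k y = lv m k (era y + 1)
  dv' : dv m k y' = lv m k (era y + 1)
  dv : dv m k y = lv m k (era y + 1)
  keyed' : keyed m k y'
  keyed : keyed m k y
  still : Still m k y' y

/-- common facts of the three nodes -/
structure Node (m k y' y : ℕ) : Prop where
  spec : spec m k (era y)
  era_eq : era y' = era y
  ord' : ordK y' = era y
  ord : ordK y = era y
  iso' : ¬ iso y'
  iso : ¬ iso y
  still : Still m k y' y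
  nE_lt : nE m k (lv m k (era y) + 1) < y'

/-- UN-KEY -/
structure UnkeyEv (m k y' y : ℕ) : Prop extends Node m k y' y where
  sv' : sv m k y' = lv m k (era y)
  sv : sv m k y = lv m k (era y)
  dv' : dv m k y' = lv m k (era y)
  dv : dv m k y = lv m k (era y)
  keyed' : keyed m k y'
  keyed : ¬ keyed m k y

/-- SPLIT -/
structure SplitEv (m k y' y : ℕ) : Prop extends Node m k y' y where
  sv' : sv m k y' = lv m k (era y)
  sv : sv m k y = lv m k (era y) + 1
  dv' : dv m k y' = lv m k (era y)
  dv : dv m k y = lv m k (era y)
  keyed' : ¬ keyed m k y'
  keyed : keyed m k y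

/-- DROP -/
structure DropEv (m k y' y : ℕ) : Prop extends Node m k y' y where
  sv' : sv m k y' = lv m k (era y) + 1
  sv : sv m k y = lv m k (era y) + 1
  dv' : dv m k y' = lv m k (era y)
  dv : dv m k y = lv m k (era y) + 1
  keyed' : keyed m k y'
  keyed : keyed m k y

variable {m k : ℕ}

theorem spec_nodes (hm : 0 < m) {j : ℕ} (h : spec m k j) :
    bb j + Zt m (lv m k j + 1) ≤ ut m (lv m k j + 1) ∧
      ut m (lv m k j + 1) ≤ nE m k (lv m k j + 1) ∧
      8 * (nD m k (lv m k j + 1) + Zt m (lv m k j + 1)) ≤ 8 * bb j + len j := by
  have h1 := Zt_le_ut hm (lv m k j + 1)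
  have h2 := nD_le hm k (lv m k j)
  have h3 := ut_le_nE m k (lv m k j + 1)
  unfold spec at h
  rw [h] at h1 h2
  exact ⟨h1, h3, h2⟩

/-- no newborn digits before the growth and after the growth -/
theorem still_of {y' y : ℕ}
    (h : ∀ z, y' ≤ z → z ≤ y → spec m k (era z) →
      z ≤ ut m (lv m k (era z) + 1) ∨ nE m k (lv m k (era z) + 1) < z) : Still m k y' y := by
  intro z h1 h2 h3
  obtain ⟨h4, n, h5, h6, h7⟩ := h3
  have h8 := h z h1 h2 h4
  have h9 : 0 < n * Bq m (lv m k (era z) + 1) := Nat.mul_pos h5 (Bq_pos _ _)
  have h10 : n * Bq m (lv m k (era z) + 1) ≤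
      nn m k (lv m k (era z) + 1) * Bq m (lv m k (era z) + 1) := Nat.mul_le_mul_right _ h6
  unfold nE at h8
  omega

/-- the first `L / 3` main digits of an era -/
theorem first_phase {y : ℕ} (h2 : 3 * (y - bb (era y)) < len (era y)) :
    ordK y = era y ∧ ¬ iso y := by
  have h3 := len_bounds (era y)
  have h4 := bb_ge_pow (era y)
  have hl : len (era y) = bb (era y + 1) - bb (era y) := rfl
  constructor
  · unfold ordK
    rw [← hl, if_pos (by omega)]
  · unfold iso
    rw [← hl]
    omega

theorem last_phase {y : ℕ} (h2 : 2 * len (era y) ≤ 5 * (y - bb (era y))) :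
    ordK y = era y + 1 ∧ ¬ iso y := by
  have hl : len (era y) = bb (era y + 1) - bb (era y) := rfl
  constructor
  · unfold ordK
    rw [← hl, if_neg (by omega)]
  · unfold iso
    rw [← hl]
    omega

theorem mid_phase {y : ℕ} (h2 : 5 * (y - bb (era y)) < 2 * len (era y))
    (h3 : len (era y) ≤ 3 * (y - bb (era y))) : ordK y = era y ∧ iso y := by
  have hl : len (era y) = bb (era y + 1) - bb (era y) := rfl
  constructor
  · unfold ordK
    rw [← hl, if_pos (by omega)]
  · unfold iso
    rw [← hl]
    omega

/-- after the first eighth of an era all nodes are passed -/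
theorem late_data (hm : 0 < m) {y : ℕ} (h : 8 * bb (era y) + len (era y) ≤ 8 * y) :
    sv m k y = lv m k (era y + 1) ∧ dv m k y = lv m k (era y + 1) ∧ keyed m k y ∧
      (spec m k (era y) → nE m k (lv m k (era y) + 1) < y) := by
  have hN := nE_le_nD m k (lv m k (era y) + 1)
  have hZ := Zt_pos m (lv m k (era y) + 1)
  by_cases hs : spec m k (era y)
  · have h1 := spec_nodes hm hs
    refine ⟨?_, ?_, ?_, ?_⟩
    · unfold sv
      rw [lv_succ hm, if_pos hs, if_pos ⟨hs, by omega⟩]
    · unfold dv
      rw [lv_succ hm, if_pos hs, if_pos ⟨hs, by omega⟩]
    · unfold keyed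
      rintro ⟨_, _, h4⟩
      omega
    · intro _
      omega
  · refine ⟨?_, ?_, ?_, ?_⟩
    · unfold sv
      rw [lv_succ hm, if_neg hs, if_neg (fun c => hs c.1), add_zero]
    · unfold dv
      rw [lv_succ hm, if_neg hs, if_neg (fun c => hs c.1), add_zero]
    · unfold keyed
      exact fun c => hs c.1
    · exact fun c => absurd c hs

/-- before the growth no node is passed -/
theorem early_data {y : ℕ} (h : spec m k (era y) → y < nU m k (lv m k (era y) + 1)) :
    sv m k y = lv m k (era y) ∧ dv m k y = lv m k (era y) ∧ keyed m k y := by
  have hN := nE_le_nD m k (lv m k (era y) + 1)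
  refine ⟨?_, ?_, ?_⟩
  · unfold sv
    rw [if_neg, add_zero]
    rintro ⟨h1, h2⟩
    have := h h1
    omega
  · unfold dv
    rw [if_neg, add_zero]
    rintro ⟨h1, h2⟩
    have := h h1
    omega
  · unfold keyed
    rintro ⟨h1, h2, _⟩
    have := h h1
    omega

/-- **at most one event** -/
theorem event_cases (hm : 0 < m) {y' y : ℕ} (h : y' ≤ y) (hk : kt m k ≤ era y) (hy' : bb 0 ≤ y')
    (hd : y < y' + ZZ m k (era y)) :
    Quiet m k y' y ∨ Border m k y' y ∨ IsoEv m k y' y ∨ OrdEv m k y' y ∨ UnkeyEv m k y' y ∨
      SplitEv m k y' y ∨ DropEv m k y' y := by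
  have hs := era_spec y (hy'.trans h)
  have hs' := era_spec y' hy'
  have hZ := ZZ_len (k := k) hm hk
  have hL := len_bounds (era y)
  have hbig := bb_ge_pow (era y)
  have hadd := bb_add_len (era y)
  by_cases he : y' < bb (era y)
  · -- a border
    right; left
    have hera : era y = era y' + 1 := by
      -- `y'` lies in the previous era
      have h1 : era y' < era y := by
        by_contra hc
        have := bb_strictMono.monotone (not_lt.1 hc)
        omega
      obtain ⟨i, hi⟩ := Nat.exists_eq_succ_of_ne_zero (show era y ≠ 0 by omega)
      rw [Nat.succ_eq_add_one] at hi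
      have h2 := bb_succ_le i
      have h3 := bb_ge_pow i
      have h5 := (bb_step i).1
      have h4 : era y' = i := by
        apply era_eq
        · rw [hi] at hd hZ hs
          omega
        · rw [← hi]
          exact he
      omega
    have hL' := len_bounds (era y')
    have hadd' := bb_add_len (era y')
    have hbig' := bb_ge_pow (era y')
    have hsucc := bb_succ_le (era y')
    rw [← hera] at hadd' hsucc
    have hlast : 2 * len (era y') ≤ 5 * (y' - bb (era y')) := by omega
    have hlate : 8 * bb (era y') + len (era y') ≤ 8 * y' := by omega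
    obtain ⟨a1, a2⟩ := last_phase hlast
    obtain ⟨b1, b2⟩ := first_phase (show 3 * (y - bb (era y)) < len (era y) by omega)
    obtain ⟨c1, c2, c3, c4⟩ := late_data (k := k) hm hlate
    have hearly : spec m k (era y) → y ≤ ut m (lv m k (era y) + 1) := by
      intro hsp
      have h1 := spec_nodes hm hsp
      unfold ZZ at hd
      rw [if_pos hsp] at hd
      omega
    obtain ⟨d1, d2, d3⟩ := early_data (m := m) (k := k) (y := y) (fun hsp => by
      have h1 := hearly hsp
      have h2 := ut_le_nE m k (lv m k (era y) + 1)
      have h3 := Zt_pos m (lv m k (era y) + 1)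
      unfold nU
      omega)
    refine ⟨hera, ?_, b1, a2, b2, ?_, d1, ?_, d2, c3, d3, ?_, he, hs.1⟩
    · rw [a1, hera]
    · rw [c1, hera]
    · rw [c2, hera]
    · apply still_of
      intro z z1 z2 z3
      rcases Nat.lt_or_ge z (bb (era y)) with h5 | h5
      · have h6 : era z = era y' := era_eq _ _ (by omega) (by rw [← hera]; exact h5)
        rw [h6] at z3 ⊢
        right
        have := c4 z3
        omega
      · have h6 : era z = era y := era_eq _ _ h5 (by omega)
        rw [h6] at z3 ⊢
        left
        exact z2.trans (hearly z3)
  · have hera : era y' = era y := era_eq _ _ (not_lt.1 he) (h.trans_lt hs.2)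
    rw [not_lt] at he
    by_cases h8 : 8 * bb (era y) + len (era y) ≤ 8 * y'
    · -- all nodes are passed
      obtain ⟨c1, c2, c3, c4⟩ := late_data (k := k) hm (y := y') (by rw [hera]; exact h8)
      obtain ⟨d1, d2, d3, d4⟩ := late_data (k := k) hm (y := y) (by omega)
      rw [hera] at c1 c2 c4
      have hstill : Still m k y' y := by
        apply still_of
        intro z z1 z2 z3
        have h6 : era z = era y := era_eq _ _ (by omega) (by omega)
        rw [h6] at z3 ⊢
        right
        have := c4 z3
        omega
      by_cases p1 : 3 * (y - bb (era y)) < len (era y)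
      · -- both in the first phase
        left
        obtain ⟨b1, b2⟩ := first_phase p1
        obtain ⟨a1, a2⟩ := first_phase (y := y') (by rw [hera]; omega)
        exact ⟨hera, by rw [a1, b1, hera], by simp [a2, b2], by rw [c1, d1], by rw [c2, d2],
          by simp [c3, d3]⟩
      · by_cases p2 : 5 * (y - bb (era y)) < 2 * len (era y)
        · obtain ⟨b1, b2⟩ := mid_phase p2 (by omega)
          by_cases p3 : 3 * (y' - bb (era y)) < len (era y)
          · right; right; left
            obtain ⟨a1, a2⟩ := first_phase (y := y') (by rw [hera]; omega)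
            exact ⟨hera, by rw [a1, hera], b1, a2, b2, c1, d1, c2, d2, c3, d3, hstill⟩
          · left
            obtain ⟨a1, a2⟩ := mid_phase (y := y') (by rw [hera]; omega)
              (by rw [hera]; omega)
            exact ⟨hera, by rw [a1, b1, hera], by simp [a2, b2], by rw [c1, d1], by rw [c2, d2],
              by simp [c3, d3]⟩
        · obtain ⟨b1, b2⟩ := last_phase (y := y) (by omega)
          by_cases p3 : 5 * (y' - bb (era y)) < 2 * len (era y)
          · right; right; right; left
            obtain ⟨a1, a2⟩ := mid_phase (y := y') (by rw [hera]; omega)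
              (by rw [hera]; omega)
            exact ⟨hera, by rw [a1, hera], b1, a2, b2, c1, d1, c2, d2, c3, d3, hstill⟩
          · left
            obtain ⟨a1, a2⟩ := last_phase (y := y') (by rw [hera]; omega)
            exact ⟨hera, by rw [a1, b1, hera], by simp [a2, b2], by rw [c1, d1], by rw [c2, d2],
              by simp [c3, d3]⟩
    · -- both in the first phase
      obtain ⟨b1, b2⟩ := first_phase (show 3 * (y - bb (era y)) < len (era y) by omega)
      obtain ⟨a1, a2⟩ := first_phase (y := y') (by rw [hera]; omega)
      by_cases hsp : spec m k (era y)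
      · have hd' : y < y' + Zt m (lv m k (era y) + 1) := by
          unfold ZZ at hd
          rwa [if_pos hsp] at hd
        have hN : nU m k (lv m k (era y) + 1) =
            nE m k (lv m k (era y) + 1) + Zt m (lv m k (era y) + 1) ∧
            nS m k (lv m k (era y) + 1) =
            nE m k (lv m k (era y) + 1) + 2 * Zt m (lv m k (era y) + 1) ∧
            nD m k (lv m k (era y) + 1) =
            nE m k (lv m k (era y) + 1) + 3 * Zt m (lv m k (era y) + 1) := ⟨rfl, rfl, rfl⟩
        have hZp := Zt_pos m (lv m k (era y) + 1)
        have hnode : nE m k (lv m k (era y) + 1) < y' → Node m k y' y := by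
          intro hlt
          refine ⟨hsp, hera, by rw [a1, hera], b1, a2, b2, ?_, hlt⟩
          apply still_of
          intro z z1 z2 z3
          have h6 : era z = era y := era_eq _ _ (by omega) (by omega)
          rw [h6]
          right
          omega
        -- the values
        have v1 : ∀ z, era z = era y → z < nS m k (lv m k (era y) + 1) →
            sv m k z = lv m k (era y) := by
          intro z z1 z2
          unfold sv
          rw [z1, if_neg (by rintro ⟨_, h2⟩; omega), add_zero]
        have v2 : ∀ z, era z = era y → nS m k (lv m k (era y) + 1) ≤ z →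
            sv m k z = lv m k (era y) + 1 := by
          intro z z1 z2
          unfold sv
          rw [z1, if_pos ⟨hsp, z2⟩]
        have v3 : ∀ z, era z = era y → z < nD m k (lv m k (era y) + 1) →
            dv m k z = lv m k (era y) := by
          intro z z1 z2
          unfold dv
          rw [z1, if_neg (by rintro ⟨_, h2⟩; omega), add_zero]
        have v4 : ∀ z, era z = era y → nD m k (lv m k (era y) + 1) ≤ z →
            dv m k z = lv m k (era y) + 1 := by
          intro z z1 z2
          unfold dv
          rw [z1, if_pos ⟨hsp, z2⟩]
        have v5 : ∀ z, era z = era y → (z < nU m k (lv m k (era y) + 1) ∨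
            nS m k (lv m k (era y) + 1) ≤ z) → keyed m k z := by
          intro z z1 z2
          unfold keyed
          rw [z1]
          rintro ⟨_, h3, h4⟩
          omega
        have v6 : ∀ z, era z = era y → nU m k (lv m k (era y) + 1) ≤ z →
            z < nS m k (lv m k (era y) + 1) → ¬ keyed m k z := by
          intro z z1 z2 z3
          unfold keyed
          rw [z1, not_not]
          exact ⟨hsp, z2, z3⟩
        rcases Nat.lt_or_ge y (nU m k (lv m k (era y) + 1)) with q1 | q1
        · left
          exact ⟨hera, by rw [a1, b1, hera], by simp [a2, b2],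
            by rw [v1 y' hera (by omega), v1 y rfl (by omega)],
            by rw [v3 y' hera (by omega), v3 y rfl (by omega)],
            by simp [v5 y' hera (by omega), v5 y rfl (by omega)]⟩
        · rcases Nat.lt_or_ge y' (nU m k (lv m k (era y) + 1)) with q2 | q2
          · -- UN-KEY
            right; right; right; right; left
            exact ⟨hnode (by omega), v1 y' hera (by omega), v1 y rfl (by omega),
              v3 y' hera (by omega), v3 y rfl (by omega), v5 y' hera (by omega),
              v6 y rfl q1 (by omega)⟩
          · rcases Nat.lt_or_ge y (nS m k (lv m k (era y) + 1)) with q3 | q3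
            · left
              exact ⟨hera, by rw [a1, b1, hera], by simp [a2, b2],
                by rw [v1 y' hera (by omega), v1 y rfl (by omega)],
                by rw [v3 y' hera (by omega), v3 y rfl (by omega)],
                by simp [v6 y' hera q2 (by omega), v6 y rfl q1 q3]⟩
            · rcases Nat.lt_or_ge y' (nS m k (lv m k (era y) + 1)) with q4 | q4
              · -- SPLIT
                right; right; right; right; right; left
                exact ⟨hnode (by omega), v1 y' hera (by omega), v2 y rfl (by omega),
                  v3 y' hera (by omega), v3 y rfl (by omega), v6 y' hera q2 q4,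
                  v5 y rfl (by omega)⟩
              · rcases Nat.lt_or_ge y (nD m k (lv m k (era y) + 1)) with q5 | q5
                · left
                  exact ⟨hera, by rw [a1, b1, hera], by simp [a2, b2],
                    by rw [v2 y' hera (by omega), v2 y rfl (by omega)],
                    by rw [v3 y' hera (by omega), v3 y rfl (by omega)],
                    by simp [v5 y' hera (by omega), v5 y rfl (by omega)]⟩
                · rcases Nat.lt_or_ge y' (nD m k (lv m k (era y) + 1)) with q6 | q6
                  · -- DROP
                    right; right; right; right; right; right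
                    exact ⟨hnode (by omega), v2 y' hera (by omega), v2 y rfl (by omega),
                      v3 y' hera (by omega), v4 y rfl (by omega), v5 y' hera (by omega),
                      v5 y rfl (by omega)⟩
                  · left
                    exact ⟨hera, by rw [a1, b1, hera], by simp [a2, b2],
                      by rw [v2 y' hera (by omega), v2 y rfl (by omega)],
                      by rw [v4 y' hera (by omega), v4 y rfl (by omega)],
                      by simp [v5 y' hera (by omega), v5 y rfl (by omega)]⟩
      · left
        refine ⟨hera, by rw [a1, b1, hera], by simp [a2, b2], ?_, ?_, ?_⟩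
        · unfold sv
          rw [hera, if_neg (fun c => hsp c.1), if_neg (fun c => hsp c.1)]
        · unfold dv
          rw [hera, if_neg (fun c => hsp c.1), if_neg (fun c => hsp c.1)]
        · unfold keyed
          rw [hera]
          simp [hsp]

end Pool.Agent.Helper37.T5b
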