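import Pool.Agent.Helper37.T5b.NumB
import Pool.Agent.Helper22.NEARs.Defs

/-!
# T5b, block NEARs: exponents (S10, S11)
-/

set_option autoImplicit false

namespace Pool.Agent.Helper37.T5b.NumS

open Finset
open Pool.Agent.Helper27.T4
open Pool.Agent.Helper37.T5b
open Pool.Agent.Helper30.T5b hiding pz_prime pz_inj NL_pos
open Pool.Agent.Helper22.HW Pool.Agent.Helper22.SL Pool.Agent.Helper57.T5
open Pool.Agent.Helper84.T5b Pool.Agent.Helper44.T5 Pool.Agent.Helper44.T5b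
open Pool.Agent.Helper22.NEARb (wW lt_hb hb_le)
open Pool.Agent.Helper22.NEARs
open Pool.Agent.Helper5.ET (bb era)
open Pool.Agent.Helper37.T5b.NumB (CDk late wW_rL)

/-- at most three levels -/
theorem hb_le_three {m k t l' l : ℕ} (hm : 0 < m) (h : PDs m k t l' l) : hb m k t l' l ≤ 3 := by
  by_contra hc
  rw [hb] at hc
  have h1 := lt_hb (m := m) (k := k) (t := t) (l' := l') (l := l) (h := 3) (by omega) (by omega)
  have hj1 := h.jump (t + 1) (by omega) (by omega)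
  have hj2 := h.jump (t + 2) (by omega) (by omega)
  have h4 := Pool.Agent.Helper27.T5b.rL_bounds hm k l
  have h5 := two_jumps hm (show sL m k l - (t + 2) < sL m k l - (t + 1) by omega) h.le hj2 hj1
  have h6 := PZ_mul hm (sL m k l - (t + 2))
  have h3 := Pool.Agent.Helper63.T5b.wW_step hm k l (i := t + 2) (by omega)
  have e : t + 2 + 1 = t + 3 := rfl
  rw [e] at h3
  unfold wW at h1 h3
  omega

theorem Cd_le {m k t l' l : ℕ} (hm : 0 < m) (h : PDs m k t l' l) (o : JF → ℕ) :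
    Pool.Agent.Helper39.SL.Cd (PN m k t l' l o) ≤ CDk k := by
  have h3 : hb m k t l' l ≤ 3 := hb_le_three hm h
  have hsp : 1 ≤ 2 * BP k := by
    have := BP_pos k
    omega
  have h1 : ∀ r ∈ range (PN m k t l' l o).h,
      ∏ i, (2 * ((PN m k t l' l o).p r i - 1)) ≤ (2 * BP k) ^ 3 := by
    intro r _
    calc ∏ i, (2 * ((PN m k t l' l o).p r i - 1)) ≤ ∏ _i : Fin 3, (2 * BP k) := by
          apply prod_le_prod'
          intro i _
          have h2 : (PN m k t l' l o).p r i = pz k (sL m k l - (t + r)) i := rfl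
          have h4 := pz_le k (sL m k l - (t + r)) i
          rw [h2]
          omega
      _ = (2 * BP k) ^ 3 := by rw [prod_const, card_univ, Fintype.card_fin]
  unfold Pool.Agent.Helper39.SL.Cd CDk
  calc ∏ r ∈ range (PN m k t l' l o).h, ∏ i, (2 * ((PN m k t l' l o).p r i - 1)) ≤
        ∏ _r ∈ range (PN m k t l' l o).h, (2 * BP k) ^ 3 := prod_le_prod' h1
    _ = ((2 * BP k) ^ 3) ^ (hb m k t l' l) := by
        rw [prod_const, card_range]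
        rfl
    _ ≤ ((2 * BP k) ^ 3) ^ 3 := Nat.pow_le_pow_right (Nat.pos_of_ne_zero (by positivity)) h3

/-- the windows at distance `d ≤ 4` -/
theorem wW_le {m k l t d : ℕ} (hm : 0 < m) (h1 : bb 0 ≤ mL m k l) (h2 : kt m k ≤ era (mL m k l))
    (hd : t + d ≤ rL m k l) (hd4 : d ≤ 4) :
    (wW m k l t : ℝ) ≤ 16 * (l : ℝ) ^ ((4 : ℝ) / m) * (wW m k l (t + d) : ℝ) := by
  have hb := Pool.Agent.Helper27.T5b.rL_bounds hm k l
  have hyl : mL m k l ≤ l := Pool.Agent.Helper27.T5b.l1_le _ _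
  have hy1 : 1 ≤ mL m k l := by
    have := bb_ge_pow 0
    omega
  have hmr : (0 : ℝ) < m := by exact_mod_cast hm
  have h3 := SS_le_mul_SS (m := m) (k := k) hm (y := mL m k l) (t := sL m k l - t) (d := d) h1 h2
    (by unfold sL; omega) (by omega)
  have e : sL m k l - t - d = sL m k l - (t + d) := by omega
  rw [e] at h3
  have hy1r : (1 : ℝ) ≤ ((mL m k l : ℕ) : ℝ) := by exact_mod_cast hy1
  have hylr : ((mL m k l : ℕ) : ℝ) ≤ (l : ℝ) := by exact_mod_cast hyl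
  have h4 : ((mL m k l : ℕ) : ℝ) ^ ((d : ℝ) / m) ≤ (l : ℝ) ^ ((4 : ℝ) / m) := by
    calc ((mL m k l : ℕ) : ℝ) ^ ((d : ℝ) / m) ≤ ((mL m k l : ℕ) : ℝ) ^ ((4 : ℝ) / m) := by
          apply Real.rpow_le_rpow_of_exponent_le hy1r
          apply div_le_div_of_nonneg_right _ hmr.le
          exact_mod_cast hd4
      _ ≤ _ := Real.rpow_le_rpow (by linarith) hylr (by positivity)
  have h5 : (2 : ℝ) ^ d ≤ 16 := by
    calc (2 : ℝ) ^ d ≤ 2 ^ 4 := pow_le_pow_right₀ (by norm_num) hd4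
      _ = 16 := by norm_num
  have h6 : (0 : ℝ) ≤ (SS m (sL m k l - (t + d)) : ℝ) := Nat.cast_nonneg _
  unfold wW
  refine h3.trans (mul_le_mul_of_nonneg_right ?_ h6)
  exact mul_le_mul h5 h4 (by positivity) (by norm_num)

theorem le_MM {m t l' l : ℕ} (hm : 0 < m) (h : PDs m (m ^ 2) t l' l) :
    2 ^ (4 * hb m (m ^ 2) t l' l) ≤ NumB.MM := by
  have h3 : hb m (m ^ 2) t l' l ≤ 3 := hb_le_three hm h
  exact Nat.pow_le_pow_right (by norm_num) (by omega)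

/-- the common numerical estimate -/
theorem num_core {m t l' l C M : ℕ} (hm : 0 < m) (h : PDs m (m ^ 2) t l' l) {n e : ℕ} {B : ℝ}
    (hexp : 2 ^ (4 * hb m (m ^ 2) t l' l) ≤ M) (hl : 1 ≤ l) (hB : 0 ≤ B)
    (hn : ((n + 1 : ℕ) : ℝ) ≤ B * (l : ℝ) ^ ((e : ℝ) / m))
    (hS : (SS m (bL m (m ^ 2) l) : ℝ) ≤ (l : ℝ) ^ ((1 : ℝ) / m)) (o : JF → ℕ) :
    (((n + 1) ^ 2 ^ (4 * hb m (m ^ 2) t l' l) *
        (Pool.Agent.Helper39.SL.Cd (PN m (m ^ 2) t l' l o) *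
          (C * SS m (bL m (m ^ 2) l))) : ℕ) : ℝ) ≤
      (B ^ M * (CDk (m ^ 2) * C)) * (l : ℝ) ^ (((e * M + 1 : ℕ) : ℝ) / (m : ℝ)) := by
  have hl0 : (0 : ℝ) ≤ (l : ℝ) := Nat.cast_nonneg _
  have hl1 : (0 : ℝ) < (l : ℝ) := by exact_mod_cast hl
  have hmr : (0 : ℝ) < m := by exact_mod_cast hm
  have p1 : (n + 1) ^ 2 ^ (4 * hb m (m ^ 2) t l' l) ≤ (n + 1) ^ M :=
    Nat.pow_le_pow_right (Nat.succ_pos n) hexp
  have p2 : (((n + 1) ^ 2 ^ (4 * hb m (m ^ 2) t l' l) : ℕ) : ℝ) ≤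
      B ^ M * (l : ℝ) ^ (((e * M : ℕ) : ℝ) / m) := by
    have q : (((n + 1) ^ 2 ^ (4 * hb m (m ^ 2) t l' l) : ℕ) : ℝ) ≤ (((n + 1) ^ M : ℕ) : ℝ) :=
      Nat.cast_le.2 p1
    refine q.trans ?_
    rw [Nat.cast_pow]
    refine (pow_le_pow_left₀ (Nat.cast_nonneg _) hn _).trans (le_of_eq ?_)
    rw [mul_pow, ← Real.rpow_natCast ((l : ℝ) ^ ((e : ℝ) / m)), ← Real.rpow_mul hl0]
    congr 2
    push_cast
    ring
  have hCd : ((Pool.Agent.Helper39.SL.Cd (PN m (m ^ 2) t l' l o) : ℕ) : ℝ) ≤ (CDk (m ^ 2) : ℝ) :=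
    Nat.cast_le.2 (Cd_le hm h o)
  have hsplit : (l : ℝ) ^ (((e * M + 1 : ℕ) : ℝ) / (m : ℝ)) =
      (l : ℝ) ^ (((e * M : ℕ) : ℝ) / (m : ℝ)) * (l : ℝ) ^ ((1 : ℝ) / (m : ℝ)) := by
    rw [← Real.rpow_add hl1]
    congr 1
    push_cast
    ring
  rw [hsplit]
  generalize hX : (((n + 1) ^ 2 ^ (4 * hb m (m ^ 2) t l' l) : ℕ)) = X at p2 ⊢
  generalize hU : (l : ℝ) ^ (((e * M : ℕ) : ℝ) / (m : ℝ)) = U at p2 ⊢
  generalize hV : (l : ℝ) ^ ((1 : ℝ) / (m : ℝ)) = V at hS ⊢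
  generalize hBB : B ^ M = BB at p2 ⊢
  have hBB0 : 0 ≤ BB := by rw [← hBB]; positivity
  have hU0 : 0 ≤ U := by rw [← hU]; positivity
  push_cast
  have q1 : (C : ℝ) * (SS m (bL m (m ^ 2) l) : ℝ) ≤ C * V :=
    mul_le_mul_of_nonneg_left hS (Nat.cast_nonneg _)
  have q2 : (Pool.Agent.Helper39.SL.Cd (PN m (m ^ 2) t l' l o) : ℝ) *
      (C * (SS m (bL m (m ^ 2) l) : ℝ)) ≤ CDk (m ^ 2) * (C * V) :=
    mul_le_mul hCd q1 (by positivity) (Nat.cast_nonneg _)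
  have q3 : (X : ℝ) * ((Pool.Agent.Helper39.SL.Cd (PN m (m ^ 2) t l' l o) : ℝ) *
      (C * (SS m (bL m (m ^ 2) l) : ℝ))) ≤ (BB * U) * (CDk (m ^ 2) * (C * V)) :=
    mul_le_mul p2 q2 (mul_nonneg (Nat.cast_nonneg _)
      (mul_nonneg (Nat.cast_nonneg _) (Nat.cast_nonneg _))) (mul_nonneg hBB0 hU0)
  calc (X : ℝ) * ((Pool.Agent.Helper39.SL.Cd (PN m (m ^ 2) t l' l o) : ℝ) *
      (C * (SS m (bL m (m ^ 2) l) : ℝ))) ≤ (BB * U) * (CDk (m ^ 2) * (C * V)) := q3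
    _ = BB * (CDk (m ^ 2) * C) * (U * V) := by ring

/-- the windows of a pair -/
theorem windows {m t l' l : ℕ} (hm : 0 < m) (h : PDs m (m ^ 2) t l' l) :
    (1 : ℝ) ≤ (wW m (m ^ 2) l (t - 1) : ℝ) ∧
      (wW m (m ^ 2) l t : ℝ) ≤ (wW m (m ^ 2) l (t - 1) : ℝ) ∧
      (SS m (bL m (m ^ 2) l) : ℝ) ≤ (wW m (m ^ 2) l (t - 1) : ℝ) := by
  have htr := h.tr
  refine ⟨?_, ?_, ?_⟩
  · have : 0 < wW m (m ^ 2) l (t - 1) := by
      unfold wW SS
      positivity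
    exact_mod_cast this
  · have : wW m (m ^ 2) l t ≤ wW m (m ^ 2) l (t - 1) :=
      Pool.Agent.Helper63.T5b.wW_anti m (m ^ 2) l (by omega)
    exact_mod_cast this
  · have e : wW m (m ^ 2) l (rL m (m ^ 2) l) ≤ wW m (m ^ 2) l (t - 1) :=
      Pool.Agent.Helper63.T5b.wW_anti m (m ^ 2) l (by omega)
    rw [wW_rL hm] at e
    exact_mod_cast e

/-- **S10** -/
theorem numReg : NumRegS := by
  refine ⟨4 * NumB.MM + 1, 2, fun m hm C => ?_⟩
  obtain ⟨K0, hK⟩ := late hm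
  refine ⟨(435202 : ℝ) ^ NumB.MM * (CDk (m ^ 2) * C), K0, by positivity, ?_⟩
  intro t l' l hl' h _
  have hm0 : 0 < m := by omega
  have hmr : (0 : ℝ) < m := by exact_mod_cast hm0
  obtain ⟨k1, k2, k3, k4⟩ := hK l (by have := h.le; omega)
  have h3 : hb m (m ^ 2) t l' l ≤ 3 := hb_le_three hm0 h
  have hle : t + hb m (m ^ 2) t l' l ≤ rL m (m ^ 2) l := hb_le h.tr
  have ht1 := h.t1
  have hr := wW_le (t := t - 1) (d := hb m (m ^ 2) t l' l + 1) hm0 k2 k3 (by omega) (by omega)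
  rw [show t - 1 + (hb m (m ^ 2) t l' l + 1) = t + hb m (m ^ 2) t l' l by omega] at hr
  have hl1 : (1 : ℝ) ≤ (l : ℝ) := by exact_mod_cast k1
  have hlp : (1 : ℝ) ≤ (l : ℝ) ^ ((4 : ℝ) / m) := Real.one_le_rpow hl1 (by positivity)
  set x : ℝ := (l : ℝ) ^ ((4 : ℝ) / m) with hx
  obtain ⟨n, hn1, hn2⟩ : ∃ n : ℕ, 435200 * x ≤ (n : ℝ) ∧ (n : ℝ) < 435200 * x + 1 :=
    ⟨⌈435200 * x⌉₊, Nat.le_ceil _, Nat.ceil_lt_add_one (by positivity)⟩
  obtain ⟨w1, w2, w3⟩ := windows hm0 h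
  refine ⟨n, ?_, ?_, ?_⟩
  · have : (1 : ℝ) ≤ (n : ℝ) := by linarith
    exact_mod_cast this
  · have hWp : (0 : ℝ) ≤ (wW m (m ^ 2) l (t + hb m (m ^ 2) t l' l) : ℝ) := Nat.cast_nonneg _
    have hsb : sb m (m ^ 2) t l' l = t + hb m (m ^ 2) t l' l := rfl
    unfold dReg
    rw [hsb]
    push_cast
    have e1 : 27200 * (wW m (m ^ 2) l (t - 1) : ℝ) ≤
        (n : ℝ) * (wW m (m ^ 2) l (t + hb m (m ^ 2) t l' l) : ℝ) := by
      calc 27200 * (wW m (m ^ 2) l (t - 1) : ℝ) ≤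
          27200 * (16 * x * (wW m (m ^ 2) l (t + hb m (m ^ 2) t l' l) : ℝ)) := by linarith
        _ = 435200 * x * (wW m (m ^ 2) l (t + hb m (m ^ 2) t l' l) : ℝ) := by ring
        _ ≤ _ := mul_le_mul_of_nonneg_right hn1 hWp
    nlinarith
  · intro o
    refine num_core hm0 h (B := 435202) (e := 4) (le_MM hm0 h) k1 (by norm_num) ?_ k4 o
    push_cast
    rw [← hx]
    linarith

/-- **S11** -/
theorem numBot : NumBotS := by
  refine ⟨5 * NumB.MM + 1, 2, fun m hm C c => ?_⟩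
  obtain ⟨K0, hK⟩ := late hm
  refine ⟨(2192 : ℝ) ^ NumB.MM * (CDk (m ^ 2) * C), K0, by positivity, ?_⟩
  intro t l' l hl' h hc
  have hm0 : 0 < m := by omega
  have hmr : (0 : ℝ) < m := by exact_mod_cast hm0
  obtain ⟨k1, k2, k3, k4⟩ := hK l (by have := h.le; omega)
  have h3 : hb m (m ^ 2) t l' l ≤ 3 := hb_le_three hm0 h
  have hle : t + hb m (m ^ 2) t l' l ≤ rL m (m ^ 2) l := hb_le h.tr
  have ht1 := h.t1
  have hr := wW_le (t := t - 1) (d := hb m (m ^ 2) t l' l + 1) hm0 k2 k3 (by omega) (by omega)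
  rw [show t - 1 + (hb m (m ^ 2) t l' l + 1) = t + hb m (m ^ 2) t l' l by omega] at hr
  have hsb : t + hb m (m ^ 2) t l' l = rL m (m ^ 2) l := hc.1
  rw [hsb, wW_rL hm0] at hr
  have hl1 : (1 : ℝ) ≤ (l : ℝ) := by exact_mod_cast k1
  have hl0 : (0 : ℝ) < (l : ℝ) := by linarith
  obtain ⟨w1, w2, w3⟩ := windows hm0 h
  have hW0 : 0 < wW m (m ^ 2) l (t - 1) := by
    unfold wW SS
    positivity
  refine ⟨136 * wW m (m ^ 2) l (t - 1), Nat.mul_pos (by norm_num) hW0, ?_, ?_⟩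
  · push_cast
    linarith
  · intro o
    refine num_core hm0 h (B := 2192) (e := 5) (le_MM hm0 h) k1 (by norm_num) ?_ k4 o
    have e5 : (l : ℝ) ^ (((5 : ℕ) : ℝ) / m) = (l : ℝ) ^ ((4 : ℝ) / m) * (l : ℝ) ^ ((1 : ℝ) / m) := by
      rw [← Real.rpow_add hl0]
      congr 1
      push_cast
      ring
    rw [e5]
    have h5 : (wW m (m ^ 2) l (t - 1) : ℝ) ≤
        16 * ((l : ℝ) ^ ((4 : ℝ) / m) * (l : ℝ) ^ ((1 : ℝ) / m)) := by
      refine hr.trans ?_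
      rw [mul_assoc]
      refine mul_le_mul_of_nonneg_left ?_ (by norm_num)
      exact mul_le_mul_of_nonneg_left k4 (by positivity)
    push_cast
    linarith

end Pool.Agent.Helper37.T5b.NumS
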