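import Pool.Agent.Helper27.T5b.Own
import Pool.Agent.Helper27.T5.SchDefs
import Pool.Agent.Helper27.T4.Phase
import Pool.Agent.Helper30.T5.Stat

/-!
# T5b (MP_12a1af): the concrete chain of variant S

Main digits = positions `y` of T4' (`bb`, `era`, `own`, `cnt`, `ordK`, `iso` of `Helper5.ET.Defs`).
Extra digits: `RB` digits of the buffer family before the main digit `bb j`, and, in the special era
`kt t` of the triple `t`, one digit of the triple `t` before every `Bq`-th main digit.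
The chain itself is `Helper27.T5b` (`pos`, `beg`, `l1`, `l2`, `ow`, `ct`, `NP`) applied to `ins`.
-/

set_option autoImplicit false

namespace Pool.Agent.Helper37.T5b

open Finset Pool.Agent.Helper5.ET Pool.Agent.Helper27.T4
open Pool.Agent.Helper27.T5 (sp gw)

/-! ## sizes -/

/-- exponents of the sizes -/
def aa (m : ℕ) : ℕ → ℕ
  | 0 => 400 * m ^ 2
  | t + 1 => aa m t + aa m t / m + 1

/-- sizes: the levels `≤ t` have `SS m t` digits of size `10 ^ 6` -/
def SS (m t : ℕ) : ℕ := 2 ^ aa m t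

theorem aa_succ (m t : ℕ) : aa m (t + 1) = aa m t + aa m t / m + 1 := rfl

theorem aa_strictMono (m : ℕ) : StrictMono (aa m) := strictMono_nat_of_lt_succ (fun t => by
  rw [aa_succ]
  exact Nat.lt_succ_of_le (Nat.le_add_right _ _))

theorem aa_div_mono (m : ℕ) {t t' : ℕ} (h : t ≤ t') : aa m t / m ≤ aa m t' / m :=
  Nat.div_le_div_right ((aa_strictMono m).monotone h)

theorem aa_div_ge {m : ℕ} (hm : 0 < m) (t : ℕ) : 400 * m ≤ aa m t / m := by
  refine le_trans ?_ (aa_div_mono m (Nat.zero_le t))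
  have h : aa m 0 = 400 * m * m := by
    show 400 * m ^ 2 = _
    ring
  rw [h, Nat.mul_div_cancel _ hm]

theorem aa_ge {m : ℕ} (hm : 0 < m) (t : ℕ) : 400 * m * m + 400 * t ≤ aa m t := by
  induction t with
  | zero =>
    have h : aa m 0 = 400 * m * m := by
      show 400 * m ^ 2 = _
      ring
    omega
  | succ t ih =>
    rw [aa_succ]
    have h1 := aa_div_ge hm t
    have h2 : 400 ≤ aa m t / m := le_trans (Nat.le_mul_of_pos_right _ hm) h1
    have h3 : 400 * (t + 1) = 400 * t + 400 := by ring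
    rw [h3]
    calc 400 * m * m + (400 * t + 400) = (400 * m * m + 400 * t) + 400 := by ring
      _ ≤ aa m t + aa m t / m := Nat.add_le_add ih h2
      _ ≤ _ := Nat.le_succ _

/-- the exponents of the quotients grow -/
theorem aa_div_succ {m : ℕ} (hm : 0 < m) (t : ℕ) : aa m t / m + 400 ≤ aa m (t + 1) / m := by
  have h1 := aa_div_ge hm t
  rw [aa_succ]
  calc aa m t / m + 400 = (aa m t + 400 * m) / m := (Nat.add_mul_div_right _ _ hm).symm
    _ ≤ _ := Nat.div_le_div_right (by omega)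

theorem aa_div_succ_le {m : ℕ} (hm : 0 < m) (t : ℕ) : aa m (t + 1) / m ≤ 2 * (aa m t / m) + 1 := by
  rw [aa_succ]
  have h3 : aa m t / m + 1 ≤ m * (aa m t / m + 1) := Nat.le_mul_of_pos_left _ hm
  calc (aa m t + aa m t / m + 1) / m ≤ (aa m t + m * (aa m t / m + 1)) / m :=
        Nat.div_le_div_right (by omega)
    _ = aa m t / m + (aa m t / m + 1) := Nat.add_mul_div_left _ _ hm
    _ = _ := by ring

theorem SS_succ (m t : ℕ) : SS m (t + 1) = SS m t * 2 ^ (aa m t / m + 1) := by
  unfold SS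
  rw [aa_succ, ← pow_add, add_assoc]

theorem SS_pos (m t : ℕ) : 0 < SS m t := by unfold SS; positivity

theorem SS_strictMono (m : ℕ) : StrictMono (SS m) := fun _ _ h =>
  Nat.pow_lt_pow_right (by norm_num) (aa_strictMono m h)

theorem SS_mono (m : ℕ) : Monotone (SS m) := (SS_strictMono m).monotone

theorem SS_dvd (m : ℕ) {t t' : ℕ} (h : t ≤ t') : SS m t ∣ SS m t' :=
  Nat.pow_dvd_pow _ ((aa_strictMono m).monotone h)

theorem SS_succ_ge {m : ℕ} (hm : 0 < m) (t : ℕ) : 2 ^ 250 * SS m t ≤ SS m (t + 1) := by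
  rw [SS_succ, mul_comm]
  apply Nat.mul_le_mul_left
  apply Nat.pow_le_pow_right (by norm_num)
  have := aa_div_ge hm t
  omega

theorem aa_ge' {m : ℕ} (hm : 0 < m) (t : ℕ) : 400 ≤ aa m t := by
  have h1 := aa_ge hm t
  have h2 : 1 ≤ m * m := Nat.mul_pos hm hm
  have h3 : 400 * m * m = 400 * (m * m) := by ring
  omega

theorem SS_ge {m : ℕ} (hm : 0 < m) (t : ℕ) : 2 ^ 250 ≤ SS m t :=
  Nat.pow_le_pow_right (by norm_num) (le_trans (by norm_num) (aa_ge' hm t))

theorem dvd_SS {m : ℕ} (hm : 0 < m) (t : ℕ) : 2 ^ 250 ∣ SS m t :=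
  Nat.pow_dvd_pow _ (le_trans (by norm_num) (aa_ge' hm t))

/-! ## special eras -/

theorem exists_border (x : ℕ) : ∃ j, x ≤ bb j := ⟨x, le_bb x⟩

/-- the special era of the triple `t` -/
def kt (m t : ℕ) : ℕ := Nat.find (exists_border (SS m (t + 1)))

theorem kt_spec (m t : ℕ) : SS m (t + 1) ≤ bb (kt m t) :=
  Nat.find_spec (exists_border (SS m (t + 1)))

theorem lt_of_lt_kt {m t j : ℕ} (h : j < kt m t) : bb j < SS m (t + 1) :=
  not_le.1 (Nat.find_min (exists_border (SS m (t + 1))) h)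

theorem kt_pos {m : ℕ} (hm : 0 < m) (t : ℕ) : 0 < kt m t := by
  rcases Nat.eq_zero_or_pos (kt m t) with h | h
  · exfalso
    have h1 := kt_spec m t
    rw [h, bb_zero] at h1
    have h2 := SS_ge hm (t + 1)
    have h3 : 2 ^ 64 < 2 ^ 250 := Nat.pow_lt_pow_right (by norm_num) (by norm_num)
    omega
  · exact h

theorem bb_kt_lt {m : ℕ} (hm : 0 < m) (t : ℕ) : bb (kt m t) < 2 * SS m (t + 1) := by
  obtain ⟨j, hj⟩ := Nat.exists_eq_succ_of_ne_zero (kt_pos hm t).ne'
  have h1 := lt_of_lt_kt (m := m) (t := t) (j := j) (by omega)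
  have h2 := bb_succ_le j
  rw [hj, Nat.succ_eq_add_one]
  omega

/-- consecutive special eras are far from each other -/
theorem bb_kt_succ {m : ℕ} (hm : 0 < m) (t : ℕ) : 2 ^ 249 * bb (kt m t) ≤ bb (kt m (t + 1)) := by
  have h1 := bb_kt_lt hm t
  have h2 := kt_spec m (t + 1)
  have h3 := SS_succ_ge hm (t + 1)
  generalize SS m (t + 1) = A at *
  generalize SS m (t + 1 + 1) = B at *
  omega

theorem kt_strictMono {m : ℕ} (hm : 0 < m) : StrictMono (kt m) := strictMono_nat_of_lt_succ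
  (fun t => by
    have h1 := bb_kt_succ hm t
    have h2 := bb_ge_pow (kt m t)
    by_contra hc
    have h3 := bb_strictMono.monotone (not_lt.1 hc)
    omega)

theorem le_kt {m : ℕ} (hm : 0 < m) (t : ℕ) : t ≤ kt m t := (kt_strictMono hm).le_apply

theorem exists_le_kt (m k j : ℕ) : ∃ t, m = 0 ∨ (k ≤ t ∧ j ≤ kt m (t + 1)) := by
  rcases Nat.eq_zero_or_pos m with h | h
  · exact ⟨0, Or.inl h⟩
  · exact ⟨k + j, Or.inr ⟨by omega, by have := le_kt h (k + j + 1); omega⟩⟩

/-- the number of split levels when the era `j` begins: the last `t > k` with `kt t < j`, else `k`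
(the levels `1, .., k` exist from the beginning, their digits are not in the chain) -/
def lv (m k j : ℕ) : ℕ := Nat.find (exists_le_kt m k j)

theorem lt_lv_iff {m : ℕ} (hm : 0 < m) {k t j : ℕ} : t < lv m k j ↔ t < k ∨ kt m (t + 1) < j := by
  unfold lv
  rw [Nat.lt_find_iff]
  constructor
  · intro h
    have h1 := h t le_rfl
    by_contra hc
    push Not at hc
    exact h1 (Or.inr hc)
  · rintro h t' ht' (h2 | ⟨h2, h3⟩)
    · omega
    · have h4 := (kt_strictMono hm).monotone (by omega : t' + 1 ≤ t + 1)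
      omega

theorem lv_le_iff {m : ℕ} (hm : 0 < m) {k t j : ℕ} : lv m k j ≤ t ↔ k ≤ t ∧ j ≤ kt m (t + 1) := by
  rw [← not_lt, lt_lv_iff hm, not_or, not_lt, not_lt]

theorem le_kt_lv {m : ℕ} (hm : 0 < m) (k j : ℕ) : j ≤ kt m (lv m k j + 1) :=
  ((lv_le_iff hm).1 le_rfl).2

theorem k_le_lv {m : ℕ} (hm : 0 < m) (k j : ℕ) : k ≤ lv m k j := ((lv_le_iff hm).1 le_rfl).1

theorem lv_mono {m : ℕ} (hm : 0 < m) (k : ℕ) : Monotone (lv m k) := fun _ _ h =>
  (lv_le_iff hm).2 ⟨k_le_lv hm _ _, h.trans (le_kt_lv hm _ _)⟩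

/-- before the special era of the triple `t + 1` there are `t` split levels -/
theorem lv_kt {m : ℕ} (hm : 0 < m) {k t : ℕ} (hk : k ≤ t) : lv m k (kt m (t + 1)) = t := by
  apply le_antisymm ((lv_le_iff hm).2 ⟨hk, le_rfl⟩)
  by_contra hc
  have h1 := ((lv_le_iff hm).1 (Nat.le_pred_of_lt (not_le.1 hc))).2
  have h2 := kt_strictMono hm (show t - 1 + 1 < t + 1 by omega)
  simp only [Nat.pred_eq_sub_one] at h1
  omega

theorem lv_kt_succ {m : ℕ} (hm : 0 < m) {k t : ℕ} (hk : k ≤ t) :
    lv m k (kt m (t + 1) + 1) = t + 1 := by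
  apply le_antisymm
  · rw [lv_le_iff hm]
    exact ⟨by omega, kt_strictMono hm (Nat.lt_succ_self _)⟩
  · exact Nat.succ_le_of_lt ((lt_lv_iff hm).2 (Or.inr (Nat.lt_succ_self _)))

/-- is the era `j` special? -/
def spec (m k j : ℕ) : Prop := kt m (lv m k j + 1) = j

instance (m k j : ℕ) : Decidable (spec m k j) := by unfold spec; infer_instance

theorem spec_kt {m : ℕ} (hm : 0 < m) {k t : ℕ} (hk : k ≤ t) : spec m k (kt m (t + 1)) := by
  unfold spec
  rw [lv_kt hm hk]

theorem spec_iff {m : ℕ} (hm : 0 < m) (k j : ℕ) :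
    spec m k j ↔ ∃ t, k ≤ t ∧ kt m (t + 1) = j := by
  constructor
  · intro h
    exact ⟨_, k_le_lv hm k j, h⟩
  · rintro ⟨t, hk, rfl⟩
    exact spec_kt hm hk

theorem lv_succ {m : ℕ} (hm : 0 < m) (k j : ℕ) :
    lv m k (j + 1) = if spec m k j then lv m k j + 1 else lv m k j := by
  split_ifs with h
  · unfold spec at h
    conv_lhs => rw [← h]
    rw [lv_kt_succ hm (k_le_lv hm k j)]
  · apply le_antisymm
    · rw [lv_le_iff hm]
      have h1 := le_kt_lv hm k j
      unfold spec at h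
      exact ⟨k_le_lv hm k j, by omega⟩
    · exact lv_mono hm k (Nat.le_succ j)

/-- a lower bound for the borders in terms of the level -/
theorem bb_ge_of_lv {m : ℕ} (hm : 0 < m) {k j t : ℕ} (hk : k ≤ t) (h : t < lv m k j) :
    SS m (t + 2) ≤ bb j := by
  have h1 := ((lt_lv_iff hm).1 h).resolve_left (by omega)
  exact (kt_spec m (t + 1)).trans (bb_strictMono.monotone h1.le)

/-- an upper bound for the borders in terms of the level -/
theorem bb_lt_of_lv {m : ℕ} (hm : 0 < m) (k j : ℕ) : bb j < 2 * SS m (lv m k j + 2) :=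
  (bb_strictMono.monotone (le_kt_lv hm k j)).trans_lt (bb_kt_lt hm _)

/-! ## the nodes of a special era (main digits) -/

/-- length of the era `j` -/
def len (j : ℕ) : ℕ := bb (j + 1) - bb j

theorem len_bounds (j : ℕ) : bb j ≤ 2 * len j + 1 ∧ 100 * len j ≤ 51 * bb j := by
  have h1 := (bb_step j).1
  have h2 := bb_succ_le j
  unfold len
  omega

theorem bb_add_len (j : ℕ) : bb j + len j = bb (j + 1) := by
  have := bb_lt_succ j
  unfold len
  omega

/-- start of the growth of the triple `t` -/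
def ut (m t : ℕ) : ℕ := bb (kt m t) + len (kt m t) / 16

/-- one newborn digit before every `Bq`-th main digit (the second summand of the exponent tends to
infinity with `t`, so `log BP k * SS m (t + 1) / Bq m (t + 1)` is small compared with `SS m t`) -/
def Bq (m t : ℕ) : ℕ := 2 ^ (10 + aa m (t - 1) / (4 * m ^ 2)) * (SS m t / SS m (t - 1))

/-- number of digits (of size `10 ^ 6`) of the triple `t` -/
def Sg (m t : ℕ) : ℕ := SS m t - SS m (t - 1)

/-- distance of the nodes -/
def Zt (m t : ℕ) : ℕ := 2 ^ 12 * SS m t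

/-- number of digits of the family `f` of the triple `t` (primes `sp (3 * (t % (k + 3)) + f)`) -/
noncomputable def zf (m k t : ℕ) (f : Fin 3) : ℕ :=
  Nat.log (sp (3 * (t % (k + 3)) + f)) ((10 ^ 6) ^ (gw f * Sg m t / 8))

/-- number of digits of the triple `t` -/
noncomputable def nn (m k t : ℕ) : ℕ := zf m k t 0 + zf m k t 1 + zf m k t 2

/-- END of the growth -/
noncomputable def nE (m k t : ℕ) : ℕ := ut m t + nn m k t * Bq m t

/-- UN-KEY -/
noncomputable def nU (m k t : ℕ) : ℕ := nE m k t + Zt m t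

/-- SPLIT -/
noncomputable def nS (m k t : ℕ) : ℕ := nE m k t + 2 * Zt m t

/-- DROP -/
noncomputable def nD (m k t : ℕ) : ℕ := nE m k t + 3 * Zt m t

theorem Bq_eq {m : ℕ} (t : ℕ) :
    Bq m (t + 1) = 2 ^ (11 + aa m t / m + aa m t / (4 * m ^ 2)) := by
  unfold Bq
  rw [Nat.add_sub_cancel, SS_succ, Nat.mul_div_cancel_left _ (SS_pos m t), ← pow_add]
  congr 1
  omega

theorem aa_four {m : ℕ} (hm : 0 < m) (t : ℕ) :
    210 + aa m t / m + aa m t / (4 * m ^ 2) ≤ aa m (t + 1) / m := by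
  have h1 := aa_div_ge hm t
  have h2 : aa m t / m + aa m t / m / m ≤ aa m (t + 1) / m := by
    rw [aa_succ]
    refine (Nat.add_div_le_add_div _ _ _).trans (Nat.div_le_div_right (Nat.le_succ _))
  have h3 : 400 ≤ aa m t / m / m := (Nat.le_div_iff_mul_le hm).2 h1
  have h4 : aa m t / (4 * m ^ 2) = aa m t / m / m / 4 := by
    rw [Nat.div_div_eq_div_mul, Nat.div_div_eq_div_mul]
    congr 1
    ring
  rw [h4]
  omega

theorem Bq_pos (m t : ℕ) : 0 < Bq m t := by
  unfold Bq
  apply Nat.mul_pos (by positivity)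
  exact Nat.div_pos (SS_mono m (Nat.sub_le _ _)) (SS_pos _ _)

theorem Sg_le (m t : ℕ) : Sg m t ≤ SS m t := Nat.sub_le _ _

theorem SS_add_Sg (m t : ℕ) : SS m (t - 1) + Sg m t = SS m t := by
  have h1 := SS_mono m (Nat.sub_le t 1)
  unfold Sg
  omega

theorem dvd_Sg {m : ℕ} (hm : 0 < m) (t : ℕ) : 2 ^ 250 ∣ Sg m t :=
  Nat.dvd_sub (dvd_SS hm t) (dvd_SS hm _)

theorem zf_le (m k t : ℕ) (f : Fin 3) : zf m k t f ≤ gw f * Sg m t / 8 := by
  unfold zf
  refine Nat.lt_succ_iff.1 (Nat.log_lt_of_lt_pow (by positivity) ?_)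
  refine lt_of_le_of_lt (Nat.pow_le_pow_right (by norm_num) (Nat.le_succ _)) ?_
  exact Nat.pow_lt_pow_left (Pool.Agent.Helper30.T5.million_lt_sp _) (Nat.succ_ne_zero _)

theorem nn_le (m k t : ℕ) : nn m k t ≤ Sg m t := by
  have h0 := zf_le m k t 0
  have h1 := zf_le m k t 1
  have h2 := zf_le m k t 2
  have e0 : gw 0 = 3 := rfl
  have e1 : gw 1 = 3 := rfl
  have e2 : gw 2 = 2 := rfl
  rw [e0] at h0
  rw [e1] at h1
  rw [e2] at h2
  unfold nn
  omega

/-- the growth is short -/
theorem grow_len {m : ℕ} (hm : 0 < m) (k t : ℕ) :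
    2 ^ 200 * (nn m k (t + 1) * Bq m (t + 1)) ≤ bb (kt m (t + 1)) := by
  have h1 := kt_spec m (t + 1)
  have h2 := aa_four hm t
  have h3 : nn m k (t + 1) * Bq m (t + 1) ≤ 2 ^ aa m (t + 1) *
      2 ^ (11 + aa m t / m + aa m t / (4 * m ^ 2)) := by
    rw [Bq_eq]
    exact Nat.mul_le_mul_right _ ((nn_le m k _).trans (Sg_le m _))
  rw [← pow_add] at h3
  calc 2 ^ 200 * (nn m k (t + 1) * Bq m (t + 1)) ≤
        2 ^ 200 * 2 ^ (aa m (t + 1) + (11 + aa m t / m + aa m t / (4 * m ^ 2))) :=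
          Nat.mul_le_mul_left _ h3
    _ = 2 ^ (200 + (aa m (t + 1) + (11 + aa m t / m + aa m t / (4 * m ^ 2)))) :=
          (pow_add _ _ _).symm
    _ ≤ 2 ^ aa m (t + 1 + 1) := Nat.pow_le_pow_right (by norm_num) (by
        rw [aa_succ m (t + 1)]
        omega)
    _ ≤ _ := h1

theorem Zt_len {m : ℕ} (hm : 0 < m) (t : ℕ) : 2 ^ 200 * Zt m t ≤ bb (kt m t) := by
  have h1 := kt_spec m t
  have h2 := SS_succ_ge hm t
  have h3 : 2 ^ 200 * Zt m t ≤ 2 ^ 250 * SS m t := by
    unfold Zt
    rw [← mul_assoc, ← pow_add]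
    exact Nat.mul_le_mul_right _ (Nat.pow_le_pow_right (by norm_num) (by norm_num))
  omega

theorem Zt_pos (m t : ℕ) : 0 < Zt m t := Nat.mul_pos (by positivity) (SS_pos _ _)

theorem big_aux {x y : ℕ} (h : 2 ^ 200 * x ≤ y) : 1024 * x ≤ y := by
  refine le_trans (Nat.mul_le_mul_right x ?_) h
  calc 1024 = 2 ^ 10 := by norm_num
    _ ≤ 2 ^ 200 := Nat.pow_le_pow_right (by norm_num) (by norm_num)

/-- the nodes lie in the first quarter of the era -/
theorem nD_le {m : ℕ} (hm : 0 < m) (k t : ℕ) :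
    8 * (nD m k (t + 1) + Zt m (t + 1)) ≤ 8 * bb (kt m (t + 1)) + len (kt m (t + 1)) := by
  have h1 := big_aux (grow_len hm k t)
  have h2 := big_aux (Zt_len hm (t + 1))
  have h3 := bb_ge_pow (kt m (t + 1))
  have h4 := len_bounds (kt m (t + 1))
  unfold nD nE ut
  omega

theorem Zt_le_ut {m : ℕ} (hm : 0 < m) (t : ℕ) : bb (kt m t) + Zt m t ≤ ut m t := by
  have h2 := big_aux (Zt_len hm t)
  have h3 := bb_ge_pow (kt m t)
  have h4 := len_bounds (kt m t)
  unfold ut
  omega

/-- everything between the start of the special era and the last node lies in the first phase -/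
theorem phase_of_mem {m : ℕ} (hm : 0 < m) {k t y : ℕ} (h1 : bb (kt m (t + 1)) ≤ y)
    (h2 : y ≤ nD m k (t + 1) + Zt m (t + 1)) :
    era y = kt m (t + 1) ∧ ordK y = kt m (t + 1) ∧ ¬ iso y ∧ own y = fam (kt m (t + 1)) := by
  have h3 := nD_le hm k t
  have h4 := bb_add_len (kt m (t + 1))
  have h5 := bb_ge_pow (kt m (t + 1))
  have h6 := len_bounds (kt m (t + 1))
  have he : era y = kt m (t + 1) := era_eq _ _ h1 (by omega)
  have hl : len (kt m (t + 1)) = bb (kt m (t + 1) + 1) - bb (kt m (t + 1)) := rfl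
  refine ⟨he, ?_, ?_, ?_⟩
  · unfold ordK
    rw [he, ← hl, if_pos (by omega)]
  · unfold iso
    rw [he, ← hl]
    omega
  · rw [own_eq, he]

/-- the family of the newborn digit number `n` (`n = 1, 2, ..`) -/
noncomputable def nf (m k t n : ℕ) : Fin 3 :=
  if n ≤ zf m k t 0 then 0 else if n ≤ zf m k t 0 + zf m k t 1 then 1 else 2

/-! ## the chain -/

/-- is there a newborn digit before the main digit `y`? -/
def gd (m k y : ℕ) : Prop :=
  spec m k (era y) ∧ ∃ n, 1 ≤ n ∧ n ≤ nn m k (lv m k (era y) + 1) ∧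
    y = ut m (lv m k (era y) + 1) + n * Bq m (lv m k (era y) + 1)

/-- number of buffer digits before a border with `s` split levels -/
def RB (m s : ℕ) : ℕ := 9 * (SS m (s - 1) / 2 ^ 9)

open Classical in
/-- number of extra digits before the main digit `y` -/
noncomputable def ins (m k y : ℕ) : ℕ :=
  (if y = bb (era y) then RB m (lv m k (era y)) else 0) + (if gd m k y then 1 else 0)

/-- owner of the extra digits before the main digit `y`: `none` is the buffer family, `some (t, f)`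
the family `f` of the triple `t` -/
noncomputable def ex (m k y : ℕ) (_r : ℕ) : Option (ℕ × Fin 3) :=
  if y = bb (era y) then none
  else some (lv m k (era y) + 1, nf m k (lv m k (era y) + 1)
    ((y - ut m (lv m k (era y) + 1)) / Bq m (lv m k (era y) + 1)))

/-- prime of an extra family -/
noncomputable def pe (k : ℕ) : Option (ℕ × Fin 3) → ℕ
  | none => 1000039
  | some (t, f) => sp (3 * (t % (k + 3)) + f)

/-- number of split levels at the main position `y` -/
noncomputable def sv (m k y : ℕ) : ℕ :=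
  lv m k (era y) + if spec m k (era y) ∧ nS m k (lv m k (era y) + 1) ≤ y then 1 else 0

/-- the last triple whose DROP is `≤ y` (else `k`); the level `dv - k` is the last dropped one -/
noncomputable def dv (m k y : ℕ) : ℕ :=
  lv m k (era y) + if spec m k (era y) ∧ nD m k (lv m k (era y) + 1) ≤ y then 1 else 0

/-- is the outermost static level keyed by the newborn families at the main position `y`?  (Not
between UN-KEY and SPLIT.  When the newborn triple has no digits its coordinates are `1`.) -/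
def keyed (m k y : ℕ) : Prop := ¬ (spec m k (era y) ∧ nU m k (lv m k (era y) + 1) ≤ y ∧
  y < nS m k (lv m k (era y) + 1))

end Pool.Agent.Helper37.T5b
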